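import Pool.Agent.Lib_helper95.ResolutionProof

open TensorProduct DualNumber Pool.Agent.Lib_helper95.Resolution

namespace Pool.Agent.Results.MP_5c73b4_ag.DualNumbers

universe u

/-- **The resolution property does not deform along nilpotent thickenings.**
For every field `k` of characteristic zero there is a smooth affine group scheme `G = Spec A` over
the dual numbers `k[ε]` such that the closed substack `X₀ = B_{k[ε]/(ε)} G₀` of `X = B_{k[ε]} G`,
which is cut out by the square-zero ideal `(ε)`, has the resolution property, but `X` does not. -/
theorem result (k : Type u) [Field k] [CharZero k] :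
    ∃ (A : Type u) (_ : CommRing A) (_ : HopfAlgebra k[ε] A),
      Algebra.Smooth k[ε] A ∧
      (Ideal.span {(ε : k[ε])}) ^ 2 = ⊥ ∧
      ResolutionPropertyOn k[ε] A (Ideal.span {(ε : k[ε])}) ∧
      ¬ ResolutionProperty k[ε] A := by
  have he : (ε : k[ε]) * ε = 0 := DualNumber.eps_mul_eps
  refine main (ε : k[ε]) he DualNumber.isMaximal_span_singleton_eps ?_
  intro n hn h0
  apply hn
  have h1 := congrArg TrivSqZeroExt.snd h0
  simpa using h1

end Pool.Agent.Results.MP_5c73b4_ag.DualNumbers
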